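import Pool.Agent.Helper71.E5.Stmts
import Pool.Agent.Helper71.E5.AXAll

/-!
MP_efd95c_co, contractions of at most five disks: an increasing sequence of touching directions
determines the perimeter.
-/

set_option autoImplicit false

open scoped MeasureTheory ENNReal
open Complex

noncomputable section

namespace E5

/-- a cyclic sum over a list of values of a function -/
theorem ord_zip {α β : Type} [AddCommMonoid β] (f : α → α → β) (m : ℕ) (g : Fin (m + 1) → α) :
    (List.zipWith f (List.ofFn g) ((List.ofFn g).rotate 1)).sum =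
      ∑ k : Fin m, f (g k.castSucc) (g k.succ) + f (g (Fin.last m)) (g 0) := by
  have h1 : (List.ofFn g).rotate 1 = List.ofFn (fun k : Fin m => g k.succ) ++ [g 0] := by
    rw [List.ofFn_succ, List.rotate_cons_succ, List.rotate_zero]
  have h2 : List.ofFn g = List.ofFn (fun k : Fin m => g k.castSucc) ++ [g (Fin.last m)] := by
    rw [List.ofFn_succ', List.concat_eq_append]
  have h3 : List.zipWith f (List.ofFn (fun k : Fin m => g k.castSucc))
      (List.ofFn (fun k : Fin m => g k.succ)) =
      List.ofFn (fun k : Fin m => f (g k.castSucc) (g k.succ)) := by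
    apply List.ext_getElem
    · simp
    · intro i h h'
      simp
  rw [h1]
  conv_lhs => rw [h2]
  rw [List.zipWith_append (by simp), h3, List.sum_append, List.sum_ofFn]
  simp

theorem ord_ctour {m : ℕ} (c : Fin (m + 1) → ℂ) :
    ctour c (List.finRange (m + 1)) = 2 * AX.tour (fun i j => AX.dl 1 (c i) (c j)) (fun k => k) := by
  unfold ctour AX.tour
  rw [← List.ofFn_id, ord_zip]
  simp only [lg, id]
  rw [mul_add, Finset.mul_sum]

/-- a touching order gives the shortest tour -/
theorem ord_le {n : ℕ} {c : Fin (n + 2) → ℂ} (hc : Function.Injective c)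
    (σ : Equiv.Perm (Fin (n + 2))) (t : Fin (n + 2) → ℝ) (hmono : StrictMono t)
    (hlast : t (Fin.last (n + 1)) < t 0 + 2 * Real.pi) (hTk : ∀ k, t k ∈ AX.T 1 c (σ k))
    (f : Fin (n + 2) → Fin (n + 2)) (hf : Function.Injective f) :
    AX.tour (fun i j => AX.dl 1 (c i) (c j)) (fun k => σ k) ≤
      AX.tour (fun i j => AX.dl 1 (c i) (c j)) f := by
  have hr : (0 : ℝ) < 1 := one_pos
  have hQ := axQ
  have hsup : ∀ k j, AX.Sup 1 (c (σ k)) (t k) (c (σ j)) := fun k j =>
    (axTSUP _ 1 c (σ k) (t k) hr).1 (hTk k) (σ j)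
  have hne' : ∀ i j, i ≠ j → c (σ i) ≠ c (σ j) := fun i j hij h => hij (σ.injective (hc h))
  have key := axKAL (n + 1) (fun i j => AX.dl 1 (c (σ i)) (c (σ j)))
    (fun i j => AX.tour_dl_comm _ _ _) (by
      intro i j k l hij hjk hkl
      have h1 := hmono hij
      have h2 := hmono hjk
      have h3 := hmono hkl
      have h4 : t l < t i + 2 * Real.pi := by
        have h5 : t l ≤ t (Fin.last (n + 1)) := hmono.monotone (Fin.le_last l)
        have h6 : t 0 ≤ t i := hmono.monotone (Fin.zero_le i)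
        linarith
      have hik := hij.trans hjk
      have hil := hik.trans hkl
      have hjl := hjk.trans hkl
      constructor
      · exact hQ 1 (c (σ i)) (c (σ j)) (c (σ k)) (c (σ l)) (t i) (t j) (t k) (t l) hr h1 h2 h3 h4
          (hne' _ _ hij.ne) (hne' _ _ hik.ne) (hne' _ _ hil.ne) (hne' _ _ hjk.ne)
          (hne' _ _ hjl.ne) (hne' _ _ hkl.ne)
          (hsup _ _) (hsup _ _) (hsup _ _) (hsup _ _) (hsup _ _) (hsup _ _)
          (hsup _ _) (hsup _ _) (hsup _ _) (hsup _ _) (hsup _ _) (hsup _ _)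
      · have := hQ 1 (c (σ j)) (c (σ k)) (c (σ l)) (c (σ i)) (t j) (t k) (t l)
          (t i + 2 * Real.pi) hr h2 h3 h4 (by linarith)
          (hne' _ _ hjk.ne) (hne' _ _ hjl.ne) (hne' _ _ hij.ne') (hne' _ _ hkl.ne)
          (hne' _ _ hik.ne') (hne' _ _ hil.ne')
          (hsup _ _) (hsup _ _) (hsup _ _) (hsup _ _) (hsup _ _) (hsup _ _)
          (hsup _ _) (hsup _ _) (hsup _ _)
          (AX.tour_sup_add (hsup _ _)) (AX.tour_sup_add (hsup _ _)) (AX.tour_sup_add (hsup _ _))
        rw [AX.tour_dl_comm 1 (c (σ l)) (c (σ i)), AX.tour_dl_comm 1 (c (σ k)) (c (σ i))] at this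
        show AX.dl 1 (c (σ i)) (c (σ l)) + AX.dl 1 (c (σ j)) (c (σ k)) ≤
          AX.dl 1 (c (σ i)) (c (σ k)) + AX.dl 1 (c (σ j)) (c (σ l))
        linarith)
    (fun k => σ.symm (f k)) (σ.symm.injective.comp hf)
  have h1 : AX.tour (fun i j => AX.dl 1 (c (σ i)) (c (σ j))) (fun k => σ.symm (f k))
      = AX.tour (fun i j => AX.dl 1 (c i) (c j)) f := by
    unfold AX.tour
    simp only [Equiv.apply_symm_apply]
  have h2 : AX.tour (fun i j => AX.dl 1 (c (σ i)) (c (σ j))) (fun i => i)
      = AX.tour (fun i j => AX.dl 1 (c i) (c j)) (fun k => σ k) := by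
    unfold AX.tour
    rfl
  rwa [h1, h2] at key

theorem ord_dl_pos {x y : ℂ} (h : x ≠ y) : 0 < AX.dl 1 x y := by
  unfold AX.dl
  have := dist_pos.2 h
  exact Real.arcsin_pos.2 (by positivity)

theorem ORD : ST_ORD := by
  intro n c t hc hmono hlast hT
  have hne : ∀ i, (AX.T 1 c i).Nonempty := fun i => ⟨t i, hT i⟩
  obtain ⟨σ, t', hmono', hlast', hT', hper⟩ := axFORM n 1 c one_pos hc hne
  obtain ⟨τ, a, b, hab, hTI, hs, hl⟩ := axHULL n 1 c one_pos hc hne
  set D : Fin (n + 2) → Fin (n + 2) → ℝ := fun i j => AX.dl 1 (c i) (c j) with hD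
  have hid : ∀ f : Fin (n + 2) → Fin (n + 2), Function.Injective f →
      AX.tour D (fun k => k) ≤ AX.tour D f := fun f hf =>
    ord_le hc (Equiv.refl _) t hmono hlast hT f hf
  have h1 : AX.tour D (fun k => σ k) = AX.tour D (fun k => k) :=
    le_antisymm (ord_le hc σ t' hmono' hlast' hT' _ Function.injective_id) (hid _ σ.injective)
  have hdp : ∀ i j, i ≠ j → 0 < D i j := fun i j hij => ord_dl_pos (fun h => hij (hc h))
  have h2 : ∑ k, (b k - a k) + 2 * AX.tour D (fun k => τ k) = 2 * Real.pi := by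
    have hsum : ∑ k : Fin (n + 2), (b k - a k) =
        ∑ k : Fin (n + 1), (b k.castSucc - a k.succ) + (b (Fin.last (n + 1)) - a 0) := by
      rw [Finset.sum_sub_distrib, Fin.sum_univ_castSucc b, Fin.sum_univ_succ a,
        Finset.sum_sub_distrib]
      ring
    have hsum2 : ∑ k : Fin (n + 1), (b k.castSucc - a k.succ) =
        -(2 * ∑ k : Fin (n + 1), D (τ k.castSucc) (τ k.succ)) := by
      rw [Finset.mul_sum, ← Finset.sum_neg_distrib]
      refine Finset.sum_congr rfl fun k _ => ?_
      have := hs k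
      simp only [hD]
      linarith
    rw [hsum, hsum2]
    unfold AX.tour
    simp only [hD] at *
    linarith
  have h3 : 0 ≤ ∑ k, (b k - a k) := Finset.sum_nonneg fun k _ => sub_nonneg.2 (hab k)
  have h4 : AX.tour D (fun k => k) ≤ Real.pi := by
    have := hid _ τ.injective
    linarith
  rw [per, hper, ord_ctour]
  rw [show AX.tour (fun i j => AX.dl 1 (c i) (c j)) (fun k => σ k) = AX.tour D (fun k => k) from h1]
  rw [ENNReal.toReal_ofReal (by nlinarith)]
  ring

end E5
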