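import Pool.Agent.Helper29.E5.ORD

/-!
MP_efd95c_co, contractions of at most five disks: the perimeter near a family with kinks.
-/

set_option autoImplicit false

open scoped MeasureTheory ENNReal Topology
open Complex

noncomputable section

namespace E5

theorem loc_mem_T {n : ℕ} (c : Fin n → ℂ) (i : Fin n) (θ : ℝ) :
    θ ∈ AX.T 1 c i ↔ ∀ j, dist (c i + AX.e θ) (c j) ≤ 1 := by
  simp [AX.T, AX.K, Metric.mem_closedBall]

theorem loc_e_cont : Continuous AX.e := by
  unfold AX.e
  fun_prop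

theorem loc_norm_e (θ : ℝ) : ‖AX.e θ‖ = 1 := by
  unfold AX.e
  exact Complex.norm_exp_ofReal_mul_I θ

theorem loc_open {n : ℕ} (i : Fin n) :
    IsOpen {x : (Fin n → ℂ) × ℝ | x.2 ∉ AX.T 1 x.1 i} := by
  have h1 : {x : (Fin n → ℂ) × ℝ | x.2 ∉ AX.T 1 x.1 i} =
      (⋂ j, {x : (Fin n → ℂ) × ℝ | dist (x.1 i + AX.e x.2) (x.1 j) ≤ 1})ᶜ := by
    ext x
    simp only [Set.mem_ofPred_eq, Set.mem_compl_iff, Set.mem_iInter]
    rw [loc_mem_T]
  rw [h1, isOpen_compl_iff]
  refine isClosed_iInter fun j => isClosed_le ?_ continuous_const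
  have h2 : Continuous (fun x : (Fin n → ℂ) × ℝ => AX.e x.2) := loc_e_cont.comp continuous_snd
  fun_prop

theorem loc_tube {n : ℕ} (c : Fin n → ℂ) (i : Fin n) (A : Set ℝ) (hA : IsCompact A)
    (h : ∀ θ ∈ A, θ ∉ AX.T 1 c i) : ∀ᶠ c' in 𝓝 c, ∀ θ ∈ A, θ ∉ AX.T 1 c' i := by
  refine hA.eventually_forall_of_forall_eventually (fun θ hθ => ?_)
  exact (loc_open i).mem_nhds (h θ hθ)

theorem loc_e_sub (θ : ℝ) (z : ℤ) : AX.e (θ - z • (2 * Real.pi)) = AX.e θ := by
  unfold AX.e
  have h := Complex.exp_periodic.sub_zsmul_eq z (x := (θ : ℂ) * I)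
  rw [← h]
  congr 1
  push_cast
  simp only [zsmul_eq_mul]
  ring

/-- touching directions can be moved into a given window -/
theorem loc_window {n : ℕ} {c : Fin n → ℂ} {i : Fin n} {θ : ℝ} (h : θ ∈ AX.T 1 c i) (x : ℝ) :
    ∃ t ∈ AX.T 1 c i, x - Real.pi ≤ t ∧ t < x + Real.pi := by
  refine ⟨toIcoMod Real.two_pi_pos (x - Real.pi) θ, ?_, ?_, ?_⟩
  · rw [loc_mem_T] at h ⊢
    unfold toIcoMod
    rw [loc_e_sub]
    exact h
  · exact (toIcoMod_mem_Ico Real.two_pi_pos (x - Real.pi) θ).1
  · have := (toIcoMod_mem_Ico Real.two_pi_pos (x - Real.pi) θ).2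
    linarith

/-- in the interior of a touching arc the other disks are not touched -/
theorem loc_strict {n : ℕ} {c : Fin n → ℂ} {i j : Fin n} (hij : c i ≠ c j) {θ δ : ℝ} (hδ : 0 < δ)
    (hδ2 : δ < Real.pi / 2) (h1 : θ - δ ∈ AX.T 1 c i) (h2 : θ + δ ∈ AX.T 1 c i) :
    dist (c i + AX.e θ) (c j) < 1 := by
  have s1 := (axTSUP n 1 c i (θ - δ) one_pos).1 h1 j
  have s2 := (axTSUP n 1 c i (θ + δ) one_pos).1 h2 j
  unfold AX.Sup at s1 s2
  have he : ∀ s : ℝ, ((c j - c i) * (starRingEnd ℂ) (AX.e s)).re =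
      (c j - c i).re * Real.cos s + (c j - c i).im * Real.sin s := by
    intro s
    unfold AX.e
    rw [Complex.mul_re, Complex.conj_re, Complex.conj_im, Complex.exp_ofReal_mul_I_re,
      Complex.exp_ofReal_mul_I_im]
    ring
  rw [he] at s1 s2
  have hd : 0 < dist (c i) (c j) ^ 2 := by
    have := dist_pos.2 hij
    positivity
  have hd2 : dist (c i) (c j) ^ 2 = (c j - c i).re ^ 2 + (c j - c i).im ^ 2 := by
    rw [dist_comm, dist_eq_norm, Complex.sq_norm, Complex.normSq_apply]
    ring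
  have hc0 : 0 < Real.cos δ := Real.cos_pos_of_mem_Ioo ⟨by linarith, hδ2⟩
  have hc1 : Real.cos δ < 1 := by
    have := Real.cos_lt_cos_of_nonneg_of_le_pi_div_two (le_refl 0) hδ2.le hδ
    rwa [Real.cos_zero] at this
  have hs : dist (c i + AX.e θ) (c j) ^ 2 =
      1 + dist (c i) (c j) ^ 2 - 2 * ((c j - c i).re * Real.cos θ +
        (c j - c i).im * Real.sin θ) := by
    rw [hd2, dist_eq_norm, Complex.sq_norm, Complex.normSq_apply]
    have e1 : (AX.e θ).re = Real.cos θ := Complex.exp_ofReal_mul_I_re θ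
    have e2 : (AX.e θ).im = Real.sin θ := Complex.exp_ofReal_mul_I_im θ
    simp only [Complex.sub_re, Complex.sub_im, Complex.add_re, Complex.add_im, e1, e2]
    have := Real.sin_sq_add_cos_sq θ
    nlinarith
  set R := (c j - c i).re * Real.cos θ + (c j - c i).im * Real.sin θ with hR
  have hsum : dist (c i) (c j) ^ 2 ≤ 2 * (Real.cos δ * R) := by
    have e1 := Real.cos_sub θ δ
    have e2 := Real.cos_add θ δ
    have e3 := Real.sin_sub θ δ
    have e4 := Real.sin_add θ δ
    rw [e1, e3] at s1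
    rw [e2, e4] at s2
    rw [hR]
    nlinarith
  have hRp : 0 < R := by
    by_contra hn
    push Not at hn
    nlinarith
  have h3 : Real.cos δ * R < R := by nlinarith
  have h4 : dist (c i + AX.e θ) (c j) ^ 2 < 1 := by
    rw [hs]
    linarith
  have h5 : 0 ≤ dist (c i + AX.e θ) (c j) := dist_nonneg
  nlinarith

/-- a point of a circle -/
theorem loc_arg {x y : ℂ} (h : dist x y = 1) : y + AX.e (Complex.arg (x - y)) = x := by
  unfold AX.e
  have h1 := Complex.norm_mul_exp_arg_mul_I (x - y)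
  rw [← dist_eq_norm, h] at h1
  rw [Complex.ofReal_one, one_mul] at h1
  rw [h1]
  ring

/-- disks whose circles do not touch the intersection can be removed -/
theorem loc_K {n m : ℕ} (c : Fin n → ℂ) (f : Fin m → Fin n) (z : ℂ)
    (hz : ∀ i, dist z (c i) < 1) (hf : ∀ i, (AX.T 1 c i).Nonempty → ∃ k, f k = i) :
    AX.K 1 (fun k => c (f k)) = AX.K 1 c := by
  refine Set.Subset.antisymm ?_ ?_
  · intro x hx
    by_contra hxn
    set y : ℝ → ℂ := fun s => z + (s : ℂ) * (x - z) with hy
    have hyc : Continuous y := by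
      rw [hy]
      fun_prop
    set A : Set ℝ := {s | s ∈ Set.Icc (0 : ℝ) 1 ∧ y s ∈ AX.K 1 c} with hA
    have hKc : IsClosed (AX.K 1 c) := isClosed_iInter fun i => Metric.isClosed_closedBall
    have hAc : IsCompact A := isCompact_Icc.inter_right (hKc.preimage hyc)
    have h0 : (0 : ℝ) ∈ A := by
      refine ⟨⟨le_refl _, zero_le_one⟩, ?_⟩
      simp only [hy, AX.K, Set.mem_iInter, Metric.mem_closedBall]
      intro i
      simpa using (hz i).le
    have hs := hAc.sSup_mem ⟨0, h0⟩
    set s := sSup A with hsd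
    have hbd : BddAbove A := hAc.bddAbove
    have hs1 : s < 1 := by
      rcases lt_or_eq_of_le hs.1.2 with h | h
      · exact h
      · exfalso
        apply hxn
        have := hs.2
        rw [h] at this
        simpa [hy] using this
    have hex : ∃ i, dist (y s) (c i) = 1 := by
      by_contra hno
      push Not at hno
      have hlt : ∀ i, dist (y s) (c i) < 1 := by
        intro i
        have h2 : dist (y s) (c i) ≤ 1 := by
          have := hs.2
          simp only [AX.K, Set.mem_iInter, Metric.mem_closedBall] at this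
          exact this i
        exact lt_of_le_of_ne h2 (hno i)
      have hev : ∀ᶠ s' in 𝓝 s, ∀ i, dist (y s') (c i) < 1 := by
        rw [Filter.eventually_all]
        intro i
        have hcont : Continuous fun s' => dist (y s') (c i) := hyc.dist continuous_const
        exact hcont.continuousAt.eventually_lt continuousAt_const (hlt i)
      have hev2 : ∀ᶠ s' in 𝓝[>] s, (∀ i, dist (y s') (c i) < 1) ∧ s < s' ∧ s' < 1 := by
        refine (hev.filter_mono nhdsWithin_le_nhds).and ?_
        exact Ioo_mem_nhdsGT hs1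
      obtain ⟨s', h3, h4, h5⟩ := hev2.exists
      have h6 : s' ∈ A := by
        refine ⟨⟨hs.1.1.trans h4.le, h5.le⟩, ?_⟩
        simp only [AX.K, Set.mem_iInter, Metric.mem_closedBall]
        exact fun i => (h3 i).le
      exact absurd (le_csSup hbd h6) (not_le.2 h4)
    obtain ⟨i, hi⟩ := hex
    have hT : (AX.T 1 c i).Nonempty := by
      refine ⟨Complex.arg (y s - c i), ?_⟩
      show c i + ((1 : ℝ) : ℂ) * AX.e _ ∈ AX.K 1 c
      rw [Complex.ofReal_one, one_mul, loc_arg hi]
      exact hs.2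
    obtain ⟨k, hk⟩ := hf i hT
    have hxi : dist x (c i) ≤ 1 := by
      simp only [AX.K, Set.mem_iInter, Metric.mem_closedBall] at hx
      have := hx k
      rwa [hk] at this
    have h7 : dist (y s) (c i) ≤ (1 - s) * dist z (c i) + s * dist x (c i) := by
      rw [dist_eq_norm, dist_eq_norm, dist_eq_norm]
      have e1 : y s - c i = ((1 - s : ℝ) : ℂ) * (z - c i) + (s : ℂ) * (x - c i) := by
        rw [hy]
        push_cast
        ring
      rw [e1]
      refine (norm_add_le _ _).trans ?_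
      rw [norm_mul, norm_mul, Complex.norm_real, Complex.norm_real, Real.norm_of_nonneg hs.1.1,
        Real.norm_of_nonneg (by linarith)]
    have h8 : 0 ≤ s := hs.1.1
    have h9 := hz i
    nlinarith
  · intro x hx
    simp only [AX.K, Set.mem_iInter, Metric.mem_closedBall] at hx ⊢
    exact fun k => hx (f k)

theorem loc_ctour {n m : ℕ} (c : Fin n → ℂ) (f : Fin m → Fin n) (l : List (Fin m)) :
    ctour (fun k => c (f k)) l = ctour c (l.map f) := by
  unfold ctour
  rw [← List.map_rotate, List.zipWith_map]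

theorem loc_red {n : ℕ} {c : Fin n → ℂ} {M : ℕ} {g : ℤ → Fin n} {a b : ℤ → ℝ}
    (h : HD c M g a b) (k : ℤ) :
    ∃ k0 : ℕ, k0 < M ∧ g (k0 : ℤ) = g k ∧ b (k0 : ℤ) - a (k0 : ℤ) = b k - a k := by
  have hM : (0 : ℤ) < M := by
    have := h.two
    omega
  have hg : Function.Periodic g (M : ℤ) := h.gper
  have hd : Function.Periodic (fun k => b k - a k) (M : ℤ) := by
    intro k
    show b (k + M) - a (k + M) = b k - a k
    rw [h.aper, h.bper]
    ring
  refine ⟨(k % M).toNat, ?_, ?_, ?_⟩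
  · have := Int.emod_lt_of_pos k hM
    have h0 := Int.emod_nonneg k hM.ne'
    omega
  · rw [Int.toNat_of_nonneg (Int.emod_nonneg k hM.ne')]
    have h1 : k % M = k - (k / M) • (M : ℤ) := by
      have := Int.emod_add_mul_ediv k M
      rw [smul_eq_mul]
      linarith [mul_comm (k / (M : ℤ)) (M : ℤ)]
    rw [h1]
    exact hg.sub_zsmul_eq (k / M)
  · rw [Int.toNat_of_nonneg (Int.emod_nonneg k hM.ne')]
    have h1 : k % M = k - (k / M) • (M : ℤ) := by
      have := Int.emod_add_mul_ediv k M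
      rw [smul_eq_mul]
      linarith [mul_comm (k / (M : ℤ)) (M : ℤ)]
    rw [h1]
    exact hd.sub_zsmul_eq (k / M)

theorem LOCP : ST_LOCP := by
  intro n c M g a b h
  obtain ⟨z, hz⟩ := h.int
  have hz1 : ∀ i, dist z (c i) < 1 := by
    intro i
    have h1 : z ∈ interior (Metric.closedBall (c i) 1) :=
      interior_mono (Set.iInter_subset _ i) hz
    rw [interior_closedBall _ one_ne_zero] at h1
    exact h1
  have hgne : ∀ k : ℤ, g k ≠ g (k + 1) := by
    intro k hk
    have h1 := h.ginj k (k + 1) hk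
    have h2 := h.two
    rw [add_sub_cancel_left] at h1
    have := Int.le_of_dvd one_pos h1
    omega
  have hgap : ∀ k : ℤ, b k < a (k + 1) := by
    intro k
    have h1 := h.step k
    have h2 : 0 < lg (c (g k)) (c (g (k + 1))) := by
      unfold lg
      have := ord_dl_pos (fun hh => hgne k (h.inj hh) : c (g k) ≠ c (g (k + 1)))
      linarith
    linarith
  obtain ⟨ε, hε1, hε2, hε⟩ : ∃ ε : ℝ, (∀ k ∈ Finset.range M, 2 * ε < a ((k : ℤ) + 1) - b (k : ℤ)) ∧
      ε < Real.pi ∧ 0 < ε := by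
    have h1 : ∀ᶠ ε : ℝ in 𝓝[>] (0 : ℝ),
        (∀ k ∈ Finset.range M, 2 * ε < a ((k : ℤ) + 1) - b (k : ℤ)) ∧ ε < Real.pi ∧ 0 < ε := by
      refine Filter.Eventually.and ?_ (Filter.Eventually.and ?_ ?_)
      · rw [Filter.eventually_all_finset]
        intro k _
        have h2 : Continuous fun ε : ℝ => 2 * ε := by fun_prop
        have h3 : ∀ᶠ ε : ℝ in 𝓝 (0 : ℝ), 2 * ε < a ((k : ℤ) + 1) - b (k : ℤ) := by
          refine h2.continuousAt.eventually_lt continuousAt_const ?_
          have := hgap k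
          simp only [mul_zero]
          linarith
        exact h3.filter_mono nhdsWithin_le_nhds
      · exact (eventually_lt_nhds Real.pi_pos).filter_mono nhdsWithin_le_nhds
      · exact eventually_mem_nhdsWithin
    exact h1.exists
  have E1 : ∀ᶠ c' in 𝓝 c, ∀ i j, i ≠ j → c' i ≠ c' j := by
    rw [Filter.eventually_all]
    intro i
    rw [Filter.eventually_all]
    intro j
    by_cases hij : i = j
    · exact Filter.Eventually.of_forall fun c' h1 => absurd hij h1
    · have h1 : c i ≠ c j := fun hh => hij (h.inj hh)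
      have h2 : ∀ᶠ c' in 𝓝 c, c' i ≠ c' j :=
        (isOpen_ne_fun (continuous_apply i) (continuous_apply j)).mem_nhds h1
      exact h2.mono fun c' h3 _ => h3
  have E2 : ∀ᶠ c' in 𝓝 c, ∀ i, dist z (c' i) < 1 := by
    rw [Filter.eventually_all]
    intro i
    have h1 : Continuous fun c' : Fin n → ℂ => dist z (c' i) := by fun_prop
    exact h1.continuousAt.eventually_lt continuousAt_const (hz1 i)
  have E3 : ∀ᶠ c' in 𝓝 c, ∀ i, AX.T 1 c i = ∅ → AX.T 1 c' i = ∅ := by
    rw [Filter.eventually_all]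
    intro i
    by_cases hi : AX.T 1 c i = ∅
    · have h1 := loc_tube c i (Set.Icc (0 - Real.pi) (0 + Real.pi)) isCompact_Icc
        (fun θ _ => by rw [hi]; exact Set.notMem_empty θ)
      refine h1.mono fun c' h2 _ => ?_
      rw [Set.eq_empty_iff_forall_notMem]
      intro θ hθ
      obtain ⟨t, ht, ht1, ht2⟩ := loc_window hθ 0
      exact h2 t ⟨ht1, ht2.le⟩ ht
    · exact Filter.Eventually.of_forall fun c' h1 => absurd h1 hi
  have E4 : ∀ᶠ c' in 𝓝 c, ∀ k ∈ Finset.range M, a (k : ℤ) < b (k : ℤ) →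
      (a (k : ℤ) + b (k : ℤ)) / 2 ∈ AX.T 1 c' (g (k : ℤ)) := by
    rw [Filter.eventually_all_finset]
    intro k _
    by_cases hk : a (k : ℤ) < b (k : ℤ)
    · have h1 : ∀ j, g (k : ℤ) ≠ j →
          dist (c (g (k : ℤ)) + AX.e ((a (k : ℤ) + b (k : ℤ)) / 2)) (c j) < 1 := by
        intro j hj
        have h2 := h.ltpi k
        have h3 : a (k : ℤ) ∈ AX.T 1 c (g (k : ℤ)) :=
          (h.mem k _ (le_refl _) (by linarith [Real.pi_pos])).2 hk.le
        have h4 : b (k : ℤ) ∈ AX.T 1 c (g (k : ℤ)) :=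
          (h.mem k _ hk.le (by linarith [Real.pi_pos])).2 (le_refl _)
        refine loc_strict (fun hh => hj (h.inj hh)) (δ := (b (k : ℤ) - a (k : ℤ)) / 2)
          (by linarith) (by linarith) ?_ ?_
        · rw [show (a (k : ℤ) + b (k : ℤ)) / 2 - (b (k : ℤ) - a (k : ℤ)) / 2 = a (k : ℤ) by ring]
          exact h3
        · rw [show (a (k : ℤ) + b (k : ℤ)) / 2 + (b (k : ℤ) - a (k : ℤ)) / 2 = b (k : ℤ) by ring]
          exact h4
      have h2 : ∀ᶠ c' in 𝓝 c, ∀ j,
          dist (c' (g (k : ℤ)) + AX.e ((a (k : ℤ) + b (k : ℤ)) / 2)) (c' j) ≤ 1 := by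
        rw [Filter.eventually_all]
        intro j
        by_cases hj : g (k : ℤ) = j
        · refine Filter.Eventually.of_forall fun c' => ?_
          rw [← hj, dist_eq_norm, add_sub_cancel_left, loc_norm_e]
        · have h3 : Continuous fun c' : Fin n → ℂ =>
              dist (c' (g (k : ℤ)) + AX.e ((a (k : ℤ) + b (k : ℤ)) / 2)) (c' j) := by fun_prop
          exact (h3.continuousAt.eventually_lt continuousAt_const (h1 j hj)).mono
            fun c' hc' => le_of_lt hc'
      refine h2.mono fun c' h3 _ => ?_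
      rw [loc_mem_T]
      exact h3
    · exact Filter.Eventually.of_forall fun c' h1 => absurd h1 hk
  have E5 : ∀ᶠ c' in 𝓝 c, ∀ k ∈ Finset.range M, a (k : ℤ) = b (k : ℤ) →
      ∀ θ ∈ AX.T 1 c' (g (k : ℤ)), a (k : ℤ) - Real.pi ≤ θ → θ ≤ a (k : ℤ) + Real.pi →
        a (k : ℤ) - ε < θ ∧ θ < a (k : ℤ) + ε := by
    rw [Filter.eventually_all_finset]
    intro k _
    by_cases hk : a (k : ℤ) = b (k : ℤ)
    · have h1 := loc_tube c (g (k : ℤ))
        (Set.Icc (a (k : ℤ) - Real.pi) (a (k : ℤ) - ε) ∪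
          Set.Icc (a (k : ℤ) + ε) (a (k : ℤ) + Real.pi))
        (isCompact_Icc.union isCompact_Icc) (by
          rintro θ (hθ | hθ) hT
          · have h2 : θ + 2 * Real.pi ∈ AX.T 1 c (g (k : ℤ)) := by
              rw [loc_mem_T] at hT ⊢
              rw [AX.tour_e_add]
              exact hT
            have h3 := (h.mem k (θ + 2 * Real.pi) (by linarith [hθ.1, Real.pi_pos])
              (by linarith [hθ.2])).1 h2
            linarith [hθ.1, Real.pi_pos]
          · have h3 := (h.mem k θ (by linarith [hθ.1])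
              (by linarith [hθ.2, Real.pi_pos])).1 hT
            linarith [hθ.1])
      refine h1.mono fun c' h2 _ θ hθ h3 h4 => ?_
      by_contra hn
      rw [not_and_or] at hn
      push Not at hn
      rcases hn with hn | hn
      · exact h2 θ (Or.inl ⟨h3, hn⟩) hθ
      · exact h2 θ (Or.inr ⟨hn, h4⟩) hθ
    · exact Filter.Eventually.of_forall fun c' h1 => absurd h1 hk
  filter_upwards [E1, E2, E3, E4, E5] with c' e1 e2 e3 e4 e5
  classical
  have hinj : Function.Injective c' := by
    intro i j hij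
    by_contra hn
    exact e1 i j hn hij
  set S : Finset (Fin n) := Finset.univ.filter (fun i => (AX.T 1 c' i).Nonempty) with hS
  have hSm : ∀ i, i ∈ S ↔ (AX.T 1 c' i).Nonempty := fun i => by simp [hS]
  have hadm : Adm g a b S := by
    refine ⟨fun k hk => ?_, fun i hi => ?_⟩
    · obtain ⟨k0, hk0, hg0, hd0⟩ := loc_red h k
      rw [hSm, ← hg0]
      exact ⟨_, e4 k0 (Finset.mem_range.2 hk0) (by linarith)⟩
    · rw [hSm] at hi
      refine h.cov i ?_
      by_contra hn
      rw [Set.not_nonempty_iff_eq_empty] at hn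
      rw [e3 i hn] at hi
      exact Set.not_nonempty_empty hi
  refine ⟨S, hadm, ?_⟩
  set L : List ℕ := (List.range M).filter (fun k => decide (g (k : ℤ) ∈ S)) with hL
  have hLl : lst g M S = L.map (fun k : ℕ => g (k : ℤ)) := by
    unfold lst
    rw [List.filter_map]
    rfl
  have hLs : L.Pairwise (· < ·) := List.Pairwise.filter _ List.pairwise_lt_range
  have hLM : ∀ k ∈ L, k < M ∧ g (k : ℤ) ∈ S := by
    intro k hk
    rw [hL, List.mem_filter] at hk
    exact ⟨List.mem_range.1 hk.1, by simpa using hk.2⟩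
  have hLM' : ∀ k : ℕ, k < M → g (k : ℤ) ∈ S → k ∈ L := by
    intro k hk hg
    rw [hL, List.mem_filter]
    exact ⟨List.mem_range.2 hk, by simpa using hg⟩
  have htt : ∀ k ∈ L, ∃ t : ℝ, t ∈ AX.T 1 c' (g (k : ℤ)) ∧ a (k : ℤ) - ε < t ∧
      t < b (k : ℤ) + ε := by
    intro k hk
    obtain ⟨hkM, hkS⟩ := hLM k hk
    rcases lt_or_eq_of_le (h.le k) with hlt | heq
    · exact ⟨_, e4 k (Finset.mem_range.2 hkM) hlt, by linarith, by linarith⟩
    · obtain ⟨θ, hθ⟩ := (hSm _).1 hkS
      obtain ⟨t, ht, ht1, ht2⟩ := loc_window hθ (a (k : ℤ))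
      have := e5 k (Finset.mem_range.2 hkM) heq t ht ht1 ht2.le
      exact ⟨t, ht, this.1, by linarith [this.2]⟩
  choose! tt htT hta htb using htt
  -- the order
  have hba : ∀ j : ℕ, ∀ k : ℕ, j < k → b (j : ℤ) < a (k : ℤ) ∧ a ((j : ℤ) + 1) ≤ a (k : ℤ) := by
    intro j k hjk
    induction k, hjk using Nat.le_induction with
    | base =>
      refine ⟨?_, ?_⟩
      · have := hgap j
        push_cast
        exact this
      · push_cast
        exact le_refl _
    | succ k hk ih =>
      have h1 := hgap k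
      have h2 := h.le k
      push_cast
      exact ⟨by linarith [ih.1], by linarith [ih.2]⟩
  have hord : ∀ j ∈ L, ∀ k ∈ L, j < k → tt j < tt k := by
    intro j hj k hk hjk
    have h1 := htb j hj
    have h2 := hta k hk
    have h3 := (hba j k hjk).2
    have h4 := hε1 j (Finset.mem_range.2 (hLM j hj).1)
    linarith
  have hord2 : ∀ j ∈ L, ∀ k ∈ L, tt j < tt k + 2 * Real.pi := by
    intro j hj k hk
    have h1 := htb j hj
    have h2 := hta k hk
    have h4 := hε1 j (Finset.mem_range.2 (hLM j hj).1)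
    have h5 : a ((j : ℤ) + 1) ≤ a ((k : ℤ) + M) := by
      have h6 := (hba j (k + M) (by have := (hLM j hj).1; omega)).2
      push_cast at h6
      exact h6
    rw [h.aper] at h5
    linarith
  -- the list as a function
  have hKf : AX.K 1 (fun k : Fin L.length => c' (g ((L[k] : ℕ) : ℤ))) = AX.K 1 c' := by
    refine loc_K c' (fun k : Fin L.length => g ((L[k] : ℕ) : ℤ)) z e2 ?_
    intro i hi
    obtain ⟨k, hk⟩ := hadm.2 i ((hSm i).2 hi)
    obtain ⟨k0, hk0, hg0, -⟩ := loc_red h k
    have h1 : k0 ∈ L := hLM' k0 hk0 (by rw [hg0, hk]; exact (hSm i).2 hi)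
    obtain ⟨m, hm, hm2⟩ := List.getElem_of_mem h1
    refine ⟨⟨m, hm⟩, ?_⟩
    show g ((L[m] : ℕ) : ℤ) = i
    rw [hm2, hg0, hk]
  have hlen : 2 ≤ L.length := by
    by_contra hn
    push Not at hn
    obtain ⟨i0, hi0⟩ : ∃ i0, ∀ k : Fin L.length, g ((L[k] : ℕ) : ℤ) = i0 := by
      rcases Nat.eq_zero_or_pos L.length with h0 | h0
      · exact ⟨g 0, fun k => absurd k.2 (by omega)⟩
      · refine ⟨g ((L[0] : ℕ) : ℤ), fun k => ?_⟩
        have : k = ⟨0, h0⟩ := Fin.ext (by have := k.2; simp only; omega)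
        rw [this]
        rfl
    obtain ⟨j, hj⟩ : ∃ j, j ≠ i0 := by
      by_cases h0 : g 0 = i0
      · exact ⟨g (0 + 1), fun h1 => hgne 0 (h0.trans h1.symm)⟩
      · exact ⟨g 0, h0⟩
    have hne : c' i0 ≠ c' j := fun hh => hj (hinj hh).symm
    have hpos : 0 < ‖c' i0 - c' j‖ := norm_pos_iff.2 (sub_ne_zero.2 hne)
    set x : ℂ := c' i0 + ((‖c' i0 - c' j‖⁻¹ : ℝ) : ℂ) * (c' i0 - c' j) with hx
    have hx1 : x ∈ AX.K 1 (fun k : Fin L.length => c' (g ((L[k] : ℕ) : ℤ))) := by
      simp only [AX.K, Set.mem_iInter, Metric.mem_closedBall]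
      intro k
      rw [hi0 k, dist_eq_norm, hx, add_sub_cancel_left, norm_mul, Complex.norm_real,
        Real.norm_of_nonneg (by positivity), inv_mul_cancel₀ hpos.ne']
    rw [hKf] at hx1
    simp only [AX.K, Set.mem_iInter, Metric.mem_closedBall] at hx1
    have h2 := hx1 j
    have h3 : x - c' j = ((‖c' i0 - c' j‖⁻¹ + 1 : ℝ) : ℂ) * (c' i0 - c' j) := by
      rw [hx]
      push_cast
      ring
    rw [dist_eq_norm, h3, norm_mul, Complex.norm_real, Real.norm_of_nonneg (by positivity),
      add_mul, inv_mul_cancel₀ hpos.ne'] at h2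
    linarith
  obtain ⟨m, hm⟩ : ∃ m, L.length = m + 2 := ⟨L.length - 2, by omega⟩
  set L' : Fin (m + 2) → ℕ := fun k => L[(k : ℕ)]'(by omega) with hL'
  have hLL' : L = List.ofFn L' := by
    apply List.ext_getElem
    · simp [hm]
    · intro i h1 h2
      simp only [List.getElem_ofFn, hL']
  have hL'm : ∀ k, L' k ∈ L := fun k => List.getElem_mem _
  have hK2 : AX.K 1 (fun k : Fin (m + 2) => c' (g ((L' k : ℕ) : ℤ))) = AX.K 1 c' := by
    rw [← hKf]
    unfold AX.K
    ext x
    simp only [Set.mem_iInter]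
    constructor
    · intro h1 k
      have := h1 ⟨k, by omega⟩
      exact this
    · intro h1 k
      exact h1 ⟨k, by omega⟩
  have hmonoL : ∀ i j : Fin (m + 2), i < j → L' i < L' j := by
    intro i j hij
    exact List.pairwise_iff_getElem.1 hLs i j _ _ hij
  have key := ORD m (fun k => c' (g ((L' k : ℕ) : ℤ))) (fun k => tt (L' k))
    (by
      intro i j hij
      have h1 := hinj hij
      have h2 := h.ginj _ _ h1
      have hi := (hLM _ (hL'm i)).1
      have hj := (hLM _ (hL'm j)).1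
      have h3 : L' i = L' j := by
        obtain ⟨q, hq⟩ := h2
        have hM := h.two
        have h4 : q = 0 := by
          rcases lt_trichotomy q 0 with h5 | h5 | h5
          · exfalso; nlinarith
          · exact h5
          · exfalso; nlinarith
        rw [h4, mul_zero] at hq
        omega
      rcases lt_trichotomy i j with h5 | h5 | h5
      · exact absurd h3 (hmonoL i j h5).ne
      · exact h5
      · exact absurd h3.symm (hmonoL j i h5).ne)
    (by
      intro i j hij
      exact hord _ (hL'm i) _ (hL'm j) (hmonoL i j hij))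
    (hord2 _ (hL'm _) _ (hL'm _))
    (by
      intro k
      show c' (g ((L' k : ℕ) : ℤ)) + ((1 : ℝ) : ℂ) * AX.e (tt (L' k)) ∈ AX.K 1 _
      rw [hK2]
      exact htT _ (hL'm k))
  have h1 : per c' = per (fun k : Fin (m + 2) => c' (g ((L' k : ℕ) : ℤ))) := by
    unfold per
    rw [hK2]
  rw [h1, key]
  congr 1
  rw [hLl, hLL', loc_ctour c' (fun k : Fin (m + 2) => g ((L' k : ℕ) : ℤ))]
  congr 1
  rw [List.map_ofFn, ← List.ofFn_id, List.map_ofFn]
  rfl

end E5
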