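import Pool.Agent.Helper71.E5.WStmts
import Pool.Agent.Helper29.E5.LOCP
import Pool.Agent.Helper26.E5.EFF
import Pool.Agent.Helper36.E5.LG
import Pool.Agent.Helper55.E5.D2

/-!
MP_efd95c_co, contractions of at most five disks: three touching points are in counterclockwise
position.
-/

set_option autoImplicit false

open scoped MeasureTheory ENNReal Topology
open Complex

noncomputable section

namespace E5

/-- scalar product with a unit vector -/
def dp (s : ℝ) (z : ℂ) : ℝ := z.re * Real.cos s + z.im * Real.sin s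

theorem ori_core {D x y pij pik pji pjk pki pkj : ℝ} (hx : 0 < x) (hy : 0 < y) (h1 : 0 < pij)
    (h2 : 0 < pik) (h3 : 0 < pji) (h4 : 0 < pjk) (h5 : 0 < pki) (h6 : 0 < pkj)
    (A : D * x = pij * pjk + pji * (pik - pij)) (B : D * y = pjk * pki + pkj * (pji - pjk)) :
    0 < D := by
  by_contra hD
  push Not at hD
  have hA : D * x ≤ 0 := mul_nonpos_of_nonpos_of_nonneg hD hx.le
  have hB : D * y ≤ 0 := mul_nonpos_of_nonpos_of_nonneg hD hy.le
  have e1 : pjk < pji := by
    by_contra hn
    push Not at hn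
    nlinarith [mul_pos h3 h2, mul_le_mul_of_nonneg_left hn h1.le]
  have e2 : 0 < pjk * pki := mul_pos h4 h5
  nlinarith [mul_pos h6 (sub_pos.2 e1)]

theorem ori3 (u v w : ℂ) (α β γ : ℝ) (h1 : α < β) (h2 : β < α + Real.pi) (h3 : β < γ)
    (h4 : γ < β + Real.pi) (p1 : 0 < dp α (v - u)) (p2 : 0 < dp α (w - u))
    (p3 : 0 < dp β (u - v)) (p4 : 0 < dp β (w - v)) (p5 : 0 < dp γ (u - w))
    (p6 : 0 < dp γ (v - w)) : 0 < crs (v - u) (w - u) := by
  have hx : 0 < Real.sin (β - α) := Real.sin_pos_of_pos_of_lt_pi (by linarith) (by linarith)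
  have hy : 0 < Real.sin (γ - β) := Real.sin_pos_of_pos_of_lt_pi (by linarith) (by linarith)
  have hD : crs (v - u) (w - u) = (v.re - u.re) * (w.im - u.im) - (v.im - u.im) * (w.re - u.re) := by
    simp only [crs, Complex.mul_im, Complex.conj_re, Complex.conj_im, Complex.sub_re,
      Complex.sub_im]
    ring
  refine ori_core hx hy p1 p2 p3 p4 p5 p6 ?_ ?_
  · rw [hD, Real.sin_sub]
    simp only [dp, Complex.sub_re, Complex.sub_im]
    ring
  · rw [hD, Real.sin_sub]
    simp only [dp, Complex.sub_re, Complex.sub_im]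
    ring

theorem crs_cyc (u v w : ℂ) : crs (v - u) (w - u) = crs (w - v) (u - v) := by
  simp only [crs, Complex.mul_im, Complex.conj_re, Complex.conj_im, Complex.sub_re,
    Complex.sub_im]
  ring

theorem dp_per (s : ℝ) (z : ℂ) : dp (s + 2 * Real.pi) z = dp s z := by
  simp only [dp, Real.cos_add_two_pi, Real.sin_add_two_pi]

/-- a touching point is exposed in every touching direction -/
theorem dp_pos {n : ℕ} {c : Fin n → ℂ} (hc : Function.Injective c) {i : Fin n} {θ : ℝ}
    (h : θ ∈ AX.T 1 c i) {j : Fin n} (hij : j ≠ i) : 0 < dp θ (c j - c i) := by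
  have s1 := (axTSUP n 1 c i θ one_pos).1 h j
  unfold AX.Sup at s1
  have he : ((c j - c i) * (starRingEnd ℂ) (AX.e θ)).re = dp θ (c j - c i) := by
    unfold AX.e dp
    rw [Complex.mul_re, Complex.conj_re, Complex.conj_im, Complex.exp_ofReal_mul_I_re,
      Complex.exp_ofReal_mul_I_im]
    ring
  rw [he] at s1
  have hd : 0 < dist (c i) (c j) ^ 2 := by
    have := dist_pos.2 (fun h => hij (hc h).symm : c i ≠ c j)
    positivity
  linarith

/-- `b k` is a touching direction -/
theorem hd_bT {n : ℕ} {c : Fin n → ℂ} {M : ℕ} {g : ℤ → Fin n} {a b : ℤ → ℝ} (h : HD c M g a b)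
    (k : ℤ) : b k ∈ AX.T 1 c (g k) := by
  refine (h.mem k (b k) (h.le k) ?_).2 le_rfl
  have := h.ltpi k
  linarith [Real.pi_pos]

theorem hd_gne {n : ℕ} {c : Fin n → ℂ} {M : ℕ} {g : ℤ → Fin n} {a b : ℤ → ℝ} (h : HD c M g a b)
    {k l : ℤ} (h1 : k < l) (h2 : l < k + M) : g k ≠ g l := by
  intro he
  obtain ⟨z, hz⟩ := h.ginj k l he
  have hM : (0 : ℤ) < M := by
    have := h.two
    omega
  have h3 : 0 < z := by
    by_contra hn
    push Not at hn
    nlinarith
  nlinarith

theorem ORI : ST_ORI := by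
  intro n c M g a b h i j k hij hjk hki
  have hb : StrictMono b := hd_bmono D2 LG h
  have h1 := hb hij
  have h2 := hb hjk
  have h3 : b k < b i + 2 * Real.pi := by
    have := hb hki
    rwa [h.bper] at this
  have nij : g i ≠ g j := hd_gne h hij (by omega)
  have njk : g j ≠ g k := hd_gne h hjk (by omega)
  have nik : g i ≠ g k := hd_gne h (hij.trans hjk) hki
  have p1 := dp_pos h.inj (hd_bT h i) nij.symm
  have p2 := dp_pos h.inj (hd_bT h i) nik.symm
  have p3 := dp_pos h.inj (hd_bT h j) nij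
  have p4 := dp_pos h.inj (hd_bT h j) njk.symm
  have p5 := dp_pos h.inj (hd_bT h k) nik
  have p6 := dp_pos h.inj (hd_bT h k) njk
  by_cases hx : b j < b i + Real.pi
  · by_cases hy : b k < b j + Real.pi
    · exact ori3 _ _ _ _ _ _ h1 hx h2 hy p1 p2 p3 p4 p5 p6
    · -- the gap between `j` and `k` is large
      have q := ori3 (c (g k)) (c (g i)) (c (g j)) (b k) (b i + 2 * Real.pi) (b j + 2 * Real.pi)
        h3 (by linarith) (by linarith) (by linarith) p5 p6 (by rw [dp_per]; exact p2)
        (by rw [dp_per]; exact p1) (by rw [dp_per]; exact p4) (by rw [dp_per]; exact p3)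
      rw [crs_cyc] at q
      exact q
  · have q := ori3 (c (g j)) (c (g k)) (c (g i)) (b j) (b k) (b i + 2 * Real.pi)
      h2 (by linarith) h3 (by linarith) p4 p3 p6 p5 (by rw [dp_per]; exact p1)
      (by rw [dp_per]; exact p2)
    rw [crs_cyc]
    exact q

end E5
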