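import Pool.Agent.Helper71.E5.WStmts
import Pool.Agent.Helper26.E5.EFF
import Pool.Agent.Helper36.E5.LG
import Pool.Agent.Helper36.E5.ONARC
import Pool.Agent.Helper55.E5.D2

/-!
MP_efd95c_co, contractions of at most five disks: the wheel of `p` in polar coordinates.
-/

set_option autoImplicit false

open scoped MeasureTheory ENNReal Topology
open Complex

noncomputable section

namespace E5

theorem wp_seq (x0 : ℝ) (t : ℤ → ℝ) : ∃ φ : ℤ → ℝ, φ 0 = x0 ∧ ∀ k, φ (k + 1) = φ k + t k := by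
  let φ : ℤ → ℝ := fun k => match k with
    | Int.ofNat n => x0 + ∑ i ∈ Finset.range n, t (i : ℤ)
    | Int.negSucc n => x0 - ∑ i ∈ Finset.range (n + 1), t (-((i : ℤ) + 1))
  refine ⟨φ, ?_, fun k => ?_⟩
  · show x0 + ∑ i ∈ Finset.range 0, t (i : ℤ) = x0
    simp
  · cases k with
    | ofNat n =>
      show x0 + ∑ i ∈ Finset.range (n + 1), t (i : ℤ) = x0 + ∑ i ∈ Finset.range n, t (i : ℤ) +
        t (Int.ofNat n)
      rw [Finset.sum_range_succ]
      simp only [Int.ofNat_eq_natCast]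
      ring
    | negSucc n =>
      cases n with
      | zero =>
        show x0 + ∑ i ∈ Finset.range 0, t (i : ℤ) =
          x0 - ∑ i ∈ Finset.range (0 + 1), t (-((i : ℤ) + 1)) + t (Int.negSucc 0)
        simp
      | succ n =>
        show x0 - ∑ i ∈ Finset.range (n + 1), t (-((i : ℤ) + 1)) =
          x0 - ∑ i ∈ Finset.range (n + 1 + 1), t (-((i : ℤ) + 1)) + t (Int.negSucc (n + 1))
        rw [Finset.sum_range_succ _ (n + 1)]
        have : (Int.negSucc (n + 1)) = -(((n + 1 : ℕ) : ℤ) + 1) := by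
          rw [Int.negSucc_eq]
        rw [this]
        ring

theorem wp_e0 : AX.e 0 = 1 := by
  unfold AX.e
  simp

theorem wp_econj (s : ℝ) : (starRingEnd ℂ) (AX.e s) = AX.e (-s) := by
  unfold AX.e
  rw [← Complex.exp_conj]
  congr 1
  simp

theorem wp_eq {x y : ℝ} (h : AX.e x = AX.e y) : ∃ m : ℤ, x = y + m * (2 * Real.pi) := by
  unfold AX.e at h
  obtain ⟨m, hm⟩ := Complex.exp_eq_exp_iff_exists_int.1 h
  refine ⟨m, ?_⟩
  have h2 := congrArg Complex.im hm
  simp at h2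
  linarith

theorem wp_norm (s : ℝ) : ‖AX.e s‖ = 1 := by
  unfold AX.e
  exact Complex.norm_exp_ofReal_mul_I s

theorem wp_ne (s : ℝ) : AX.e s ≠ 0 := by
  intro h
  have := wp_norm s
  rw [h] at this
  simp at this

/-- polar coordinates of a sequence of points which turns counterclockwise -/
theorem wp_dir (P : ℤ → ℂ) (h : ∀ k, 0 < crs (P k) (P (k + 1))) :
    ∃ φ t : ℤ → ℝ, (∀ k, 0 < t k ∧ t k < Real.pi) ∧ (∀ k, φ (k + 1) = φ k + t k) ∧
      (∀ k, P k = (‖P k‖ : ℂ) * AX.e (φ k)) ∧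
      ∀ k, t k = Complex.arg ((starRingEnd ℂ) (P k) * P (k + 1)) := by
  have hP : ∀ k, P k ≠ 0 := by
    intro k h0
    have := h k
    rw [h0] at this
    simp [crs] at this
  set t : ℤ → ℝ := fun k => Complex.arg ((starRingEnd ℂ) (P k) * P (k + 1)) with ht
  have ht0 : ∀ k, 0 < t k ∧ t k < Real.pi := by
    intro k
    have h1 : 0 < ((starRingEnd ℂ) (P k) * P (k + 1)).im := h k
    have h2 : 0 ≤ t k := Complex.arg_nonneg_iff.2 h1.le
    refine ⟨lt_of_le_of_ne h2 (fun h3 => ?_), lt_of_le_of_ne (Complex.arg_le_pi _) (fun h3 => ?_)⟩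
    · have h4 := Complex.arg_eq_zero_iff.1 h3.symm
      rw [h4.2] at h1
      exact lt_irrefl _ h1
    · have h4 := Complex.arg_eq_pi_iff.1 h3
      rw [h4.2] at h1
      exact lt_irrefl _ h1
  have hz : ∀ k, (starRingEnd ℂ) (P k) * P (k + 1) =
      ((‖P k‖ : ℂ) * (‖P (k + 1)‖ : ℂ)) * AX.e (t k) := by
    intro k
    have h1 := Complex.norm_mul_exp_arg_mul_I ((starRingEnd ℂ) (P k) * P (k + 1))
    rw [norm_mul, Complex.norm_conj] at h1
    unfold AX.e
    rw [← Complex.ofReal_mul]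
    exact h1.symm
  obtain ⟨φ, hφ0, hφ⟩ := wp_seq (Complex.arg (P 0)) t
  have hn : ∀ k, (‖P k‖ : ℂ) ≠ 0 := fun k => by
    rw [Ne, Complex.ofReal_eq_zero, norm_eq_zero]
    exact hP k
  refine ⟨φ, t, ht0, hφ, ?_, fun k => rfl⟩
  intro k
  induction k using Int.induction_on with
  | zero =>
    rw [hφ0]
    exact (Complex.norm_mul_exp_arg_mul_I (P 0)).symm
  | succ k ih =>
    have h1 := hz (k : ℤ)
    rw [hφ, e_add]
    have h2 : (starRingEnd ℂ) (P (k : ℤ)) = (‖P (k : ℤ)‖ : ℂ) * AX.e (-φ k) := by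
      conv_lhs => rw [ih]
      rw [map_mul, Complex.conj_ofReal, wp_econj]
    rw [h2] at h1
    have h3 : AX.e (φ k) * AX.e (-φ k) = 1 := e_neg_mul _
    have h4 : P (k + 1 : ℤ) * (‖P (k : ℤ)‖ : ℂ) =
        ((‖P (k + 1 : ℤ)‖ : ℂ) * (AX.e (φ k) * AX.e (t k))) * (‖P (k : ℤ)‖ : ℂ) := by
      calc P (k + 1 : ℤ) * (‖P (k : ℤ)‖ : ℂ) =
          AX.e (φ k) * ((‖P (k : ℤ)‖ : ℂ) * AX.e (-φ k) * P (k + 1 : ℤ)) := by
            linear_combination (-(P (k + 1 : ℤ) * (‖P (k : ℤ)‖ : ℂ))) * h3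
        _ = _ := by
            rw [h1]
            ring
    exact mul_right_cancel₀ (hn k) h4
  | pred k ih =>
    have h1 := hz (-(k : ℤ) - 1)
    have hφ1 := hφ (-(k : ℤ) - 1)
    have e1 : (-(k : ℤ) - 1 + 1) = -(k : ℤ) := by ring
    rw [e1] at h1 hφ1
    set Q := P (-(k : ℤ) - 1) with hQ
    have h5 : φ (-(k : ℤ) - 1) = φ (-(k : ℤ)) - t (-(k : ℤ) - 1) := by linarith
    have h6 : (starRingEnd ℂ) Q * (AX.e (φ (-(k : ℤ)))) = (‖Q‖ : ℂ) * AX.e (t (-(k : ℤ) - 1)) := by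
      refine mul_right_cancel₀ (hn (-(k : ℤ))) ?_
      calc (starRingEnd ℂ) Q * AX.e (φ (-(k : ℤ))) * (‖P (-(k : ℤ))‖ : ℂ) =
          (starRingEnd ℂ) Q * ((‖P (-(k : ℤ))‖ : ℂ) * AX.e (φ (-(k : ℤ)))) := by ring
        _ = (starRingEnd ℂ) Q * P (-(k : ℤ)) := by rw [← ih]
        _ = _ := by
            rw [h1]
            ring
    have h7 := congrArg (starRingEnd ℂ) h6
    rw [map_mul, map_mul, Complex.conj_conj, Complex.conj_ofReal, wp_econj, wp_econj] at h7
    have h8 : AX.e (φ (-(k : ℤ))) * AX.e (-φ (-(k : ℤ))) = 1 := e_neg_mul _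
    rw [h5, sub_eq_add_neg, e_add]
    calc Q = AX.e (φ (-(k : ℤ))) * (Q * AX.e (-φ (-(k : ℤ)))) := by
          linear_combination (-Q) * h8
      _ = _ := by
          rw [h7]
          ring

theorem wp_ch_symm (r s θ : ℝ) : ch r s θ = ch s r θ := by
  unfold ch
  congr 1
  ring

theorem wp_hd_symm (r s θ : ℝ) : hd r s θ = hd s r θ := by
  unfold hd
  rw [wp_ch_symm]

theorem WP (hT : ST_TRI) (hW : ST_WARC) : ST_WP := by
  intro p g a b h hp0 hcr
  obtain ⟨φ, t, ht, hφ, hP, htd⟩ := wp_dir (fun k => p (g k)) hcr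
  have hg4 : ∀ k, g (k + 4) = g k := fun k => by
    have := h.gper k
    simpa using this
  have ha4 : ∀ k, a (k + 4) = a k + 2 * Real.pi := fun k => by
    have := h.aper k
    simpa using this
  have hpos : ∀ k, 0 < ‖p (g k)‖ := by
    intro k
    rw [norm_pos_iff]
    intro h0
    have := hcr k
    rw [h0] at this
    simp [crs] at this
  have ht4 : ∀ k, t (k + 4) = t k := by
    intro k
    rw [htd, htd]
    have e1 : k + 4 + 1 = k + 1 + 4 := by ring
    simp only [e1, hg4]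
  have hP4 : ∀ k, AX.e (φ (k + 4)) = AX.e (φ k) := by
    intro k
    have h1 := hP (k + 4)
    have h2 := hP k
    simp only [hg4] at h1
    have h3 : (‖p (g k)‖ : ℂ) ≠ 0 := by
      rw [Ne, Complex.ofReal_eq_zero]
      exact (hpos k).ne'
    refine mul_left_cancel₀ h3 ?_
    rw [← h1, ← h2]
  have hphi4 : ∀ k, φ (k + 4) = φ k + (t k + t (k + 1) + t (k + 2) + t (k + 3)) := by
    intro k
    have e1 := hφ k
    have e2 := hφ (k + 1)
    have e3 := hφ (k + 2)
    have e4 := hφ (k + 3)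
    have f2 : k + 1 + 1 = k + 2 := by ring
    have f3 : k + 2 + 1 = k + 3 := by ring
    have f4 : k + 3 + 1 = k + 4 := by ring
    rw [f2] at e2
    rw [f3] at e3
    rw [f4] at e4
    linarith
  have hsum : ∀ k, t k + t (k + 1) + t (k + 2) + t (k + 3) = 2 * Real.pi := by
    intro k
    obtain ⟨m, hm⟩ := wp_eq (hP4 k)
    rw [hphi4] at hm
    have hm' : t k + t (k + 1) + t (k + 2) + t (k + 3) = m * (2 * Real.pi) := by linarith
    have t0 := ht k
    have t1 := ht (k + 1)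
    have t2 := ht (k + 2)
    have t3 := ht (k + 3)
    have hpi := Real.pi_pos
    have hm1 : (0 : ℝ) < m := by
      by_contra hn
      push Not at hn
      nlinarith
    have hm2 : (m : ℝ) < 2 := by
      by_contra hn
      push Not at hn
      nlinarith
    have hm3 : m = 1 := by
      have h1 : (0 : ℤ) < m := by exact_mod_cast hm1
      have h2 : m < 2 := by exact_mod_cast hm2
      omega
    rw [hm', hm3]
    push_cast
    ring
  -- the arcs
  have hA : ∀ k, AX.e (b k) = AX.e (φ k + 3 * Real.pi / 2 - UU ‖p (g k)‖ ‖p (g (k + 1))‖ (t k)) ∧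
      AX.e (a (k + 1)) = AX.e (φ k + t k + Real.pi / 2 + UU ‖p (g (k + 1))‖ ‖p (g k)‖ (t k)) ∧
      a (k + 1) - b k = 2 * hd ‖p (g k)‖ ‖p (g (k + 1))‖ (t k) ∧
      ch ‖p (g k)‖ ‖p (g (k + 1))‖ (t k) < 2 := by
    intro k
    obtain ⟨s1, s2⟩ := hd_step D2 LG h k
    have hc := h.corner k
    refine hW (p (g k) + AX.e (b k)) (b k) (a (k + 1)) _ _ (φ k) (t k) s1 (by linarith)
      (hpos k) (hpos (k + 1)) (ht k).1 (ht k).2 ?_ ?_
    · rw [add_sub_cancel_right]
      exact hP k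
    · rw [hc, add_sub_cancel_right, ← hφ]
      exact hP (k + 1)
  have hTk : ∀ k, _ := fun k => hT ‖p (g k)‖ ‖p (g (k + 1))‖ (t k) (hpos k) (hpos (k + 1))
    (ht k).1 (ht k).2 (hA k).2.2.2
  have hTk' : ∀ k, _ := fun k => hT ‖p (g (k + 1))‖ ‖p (g k)‖ (t k) (hpos (k + 1)) (hpos k)
    (ht k).1 (ht k).2 (by rw [wp_ch_symm]; exact (hA k).2.2.2)
  -- the directions `a k`
  have hak : ∀ k, AX.e (a k) =
      AX.e (φ k + Real.pi / 2 + UU ‖p (g k)‖ ‖p (g (k - 1))‖ (t (k - 1))) := by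
    intro k
    have h1 := (hA (k - 1)).2.1
    have e1 : k - 1 + 1 = k := by ring
    rw [e1] at h1
    rw [h1]
    have h2 := hφ (k - 1)
    rw [e1] at h2
    rw [h2]
  set D : ℤ → ℝ := fun k => (b k - a k) - (Real.pi - UU ‖p (g k)‖ ‖p (g (k + 1))‖ (t k) -
      UU ‖p (g k)‖ ‖p (g (k - 1))‖ (t (k - 1))) with hD
  have hD0 : ∀ k, 0 ≤ D k := by
    intro k
    obtain ⟨m, hm⟩ := wp_eq (hA k).1
    obtain ⟨m', hm'⟩ := wp_eq (hak k)
    have h1 : D k = (m - m') * (2 * Real.pi) := by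
      simp only [hD]
      rw [hm, hm']
      ring
    have u1 := hTk k
    have u2 := hTk' (k - 1)
    have e1 : k - 1 + 1 = k := by ring
    rw [e1] at u2
    have hU : 0 < UU ‖p (g k)‖ ‖p (g (k + 1))‖ (t k) := by
      unfold UU
      linarith [u1.2.2.1, u1.2.2.2.2.1]
    have hU' : 0 < UU ‖p (g k)‖ ‖p (g (k - 1))‖ (t (k - 1)) := by
      unfold UU
      linarith [u2.2.2.1, u2.2.2.2.2.1]
    have h2 : -Real.pi < D k := by
      simp only [hD]
      have := h.le k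
      linarith
    rw [h1] at h2 ⊢
    have hpi := Real.pi_pos
    have h3 : (-1 : ℝ) < m - m' := by
      by_contra hn
      push Not at hn
      nlinarith
    have h4 : (-1 : ℤ) < m - m' := by exact_mod_cast h3
    have h5 : (0 : ℤ) ≤ m - m' := by omega
    have h6 : (0 : ℝ) ≤ m - m' := by exact_mod_cast h5
    positivity
  have hDs : ∀ k, D k + D (k + 1) + D (k + 2) + D (k + 3) = 0 := by
    intro k
    have b0 := (hA k).2.2.1
    have b1 := (hA (k + 1)).2.2.1
    have b2 := (hA (k + 2)).2.2.1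
    have b3 := (hA (k + 3)).2.2.1
    have c0 := (hTk k).2.2.2.2.2.2.2.2.1
    have c1 := (hTk (k + 1)).2.2.2.2.2.2.2.2.1
    have c2 := (hTk (k + 2)).2.2.2.2.2.2.2.2.1
    have c3 := (hTk (k + 3)).2.2.2.2.2.2.2.2.1
    have s := hsum k
    have a4 := ha4 k
    have f2 : k + 1 + 1 = k + 2 := by ring
    have f3 : k + 2 + 1 = k + 3 := by ring
    have f4 : k + 3 + 1 = k + 4 := by ring
    have g0 : k - 1 = k + 3 - 4 := by ring
    have g1 : k + 1 - 1 = k := by ring
    have g2 : k + 2 - 1 = k + 1 := by ring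
    have g3 : k + 3 - 1 = k + 2 := by ring
    have gm : g (k - 1) = g (k + 3) := by
      rw [g0, ← hg4]
      congr 1
      ring
    have tm : t (k - 1) = t (k + 3) := by
      rw [g0, ← ht4]
      congr 1
      ring
    rw [f2] at b1 c1
    rw [f3] at b2 c2
    rw [f4] at b3 c3
    rw [hg4] at b3 c3
    simp only [hD]
    rw [f2, f3, f4, g1, g2, g3, gm, tm, hg4]
    unfold UU
    rw [wp_hd_symm ‖p (g k)‖ ‖p (g (k + 3))‖, wp_hd_symm ‖p (g (k + 1))‖ ‖p (g k)‖,
      wp_hd_symm ‖p (g (k + 2))‖ ‖p (g (k + 1))‖, wp_hd_symm ‖p (g (k + 3))‖ ‖p (g (k + 2))‖]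
    linarith
  refine ⟨φ, t, ht, ht4, hφ, ?_, hP, hpos, fun k => (hA k).1, hak, ?_, fun k => (hA k).2.2.2⟩
  · have := hsum 0
    simpa using this
  · intro k
    have h0 := hD0 k
    have h1 := hD0 (k + 1)
    have h2 := hD0 (k + 2)
    have h3 := hD0 (k + 3)
    have h4 := hDs k
    have h5 : D k = 0 := by linarith
    simp only [hD] at h5
    linarith

end E5
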